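import Mathlib
import Pool.Agent.Helper83.VN.Defs

/-!
# The exchange of two neighbours: the sixteen coefficients
-/

set_option linter.unusedSectionVars false
set_option linter.unusedSimpArgs false

namespace Pool.Agent.Helper15.VN

section

variable {K : Type*} [Field K] [CharZero K]
variable {s₁ t₁ s₂ t₂ z₁ z₂ w d n q r y₁ y₂ : K}
    (hd' : d = t₂ * z₁ * z₂ + s₂ * t₂ * z₁ + s₂ * t₁ * z₂ + s₂ * t₁ * t₂)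
    (hn' : n = z₁ * z₂ + s₂ * z₁ + s₁ * z₂ + s₁ * t₂)
    (hq' : q = t₁ * z₁ * z₂ + s₁ * t₁ * z₂ + s₁ * t₂ * z₁ + s₁ * t₁ * t₂)
    (hr' : r = z₁ * z₂ + s₁ * z₂ + s₂ * z₁ + s₂ * t₁)
    (hd : d ≠ 0) (hn : n ≠ 0) (hq : q ≠ 0) (hr : r ≠ 0)
    (h1 : z₁ ≠ 0) (h2 : z₂ ≠ 0) (h3 : z₁ + s₁ ≠ 0) (h4 : z₁ + t₁ ≠ 0) (h5 : z₂ + s₂ ≠ 0)
    (h6 : z₂ + t₂ ≠ 0) (h7 : t₁ ≠ 0) (h8 : t₂ ≠ 0)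
    (f1 : y₁ = t₁ * z₂ * n / d) (f2 : y₂ = t₂ * z₁ * r / q)
    (g1 : y₁ + s₁ = (z₂ + s₂) * q / d) (g2 : y₁ + t₁ = t₁ * (z₂ + t₂) * r / d)
    (g3 : y₂ + s₂ = (z₁ + s₁) * d / q) (g4 : y₂ + t₂ = t₂ * (z₁ + t₁) * n / q)

include hd' hn' hq' hr' hd hn hq hr h1 h2 h3 h4 h5 h6 h7 h8 f1 f2 g1 g2 g3 g4

lemma sw00 : ((z₂ + s₂) / (z₂ + t₂) * (z₂ * ((z₁ + s₁) / (z₁ + t₁) * (z₁ * 1 + t₁ ^ 2 / z₁ * 0 + t₁ * (0 + (w - 4) * 0))) + t₂ ^ 2 / z₂ * ((z₁ + t₁) / (z₁ + s₁) * (z₁ * 1 + s₁ ^ 2 / z₁ * 0 + s₁ * (0 - (w - 4) * 0))) + t₂ * (((s₁ + t₁) * 0 + 2⁻¹ * w * (z₁ * 1 + s₁ * t₁ / z₁ * 0)) + (w - 4) * ((s₁ - t₁) * 0 + 2⁻¹ * (z₁ * 1 - s₁ * t₁ / z₁ * 0))))) =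
    ((y₁ + s₁) / (y₁ + t₁) * (y₁ * ((y₂ + s₂) / (y₂ + t₂) * (y₂ * 1 + t₂ ^ 2 / y₂ * 0 + t₂ * (0 + (w - 4) * 0))) + t₁ ^ 2 / y₁ * ((y₂ + t₂) / (y₂ + s₂) * (y₂ * 1 + s₂ ^ 2 / y₂ * 0 + s₂ * (0 - (w - 4) * 0))) + t₁ * (((s₂ + t₂) * 0 + 2⁻¹ * w * (y₂ * 1 + s₂ * t₂ / y₂ * 0)) + (w - 4) * ((s₂ - t₂) * 0 + 2⁻¹ * (y₂ * 1 - s₂ * t₂ / y₂ * 0))))) := by
  try rw [g1]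
  try rw [g2]
  try rw [g3]
  try rw [g4]
  try rw [f1]
  try rw [f2]
  field_simp
  try (simp only [hd', hn', hq', hr']; ring)

lemma sw01 : ((z₂ + s₂) / (z₂ + t₂) * (z₂ * ((z₁ + s₁) / (z₁ + t₁) * (z₁ * 0 + t₁ ^ 2 / z₁ * 1 + t₁ * (0 + (w - 4) * 0))) + t₂ ^ 2 / z₂ * ((z₁ + t₁) / (z₁ + s₁) * (z₁ * 0 + s₁ ^ 2 / z₁ * 1 + s₁ * (0 - (w - 4) * 0))) + t₂ * (((s₁ + t₁) * 0 + 2⁻¹ * w * (z₁ * 0 + s₁ * t₁ / z₁ * 1)) + (w - 4) * ((s₁ - t₁) * 0 + 2⁻¹ * (z₁ * 0 - s₁ * t₁ / z₁ * 1))))) =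
    ((y₁ + s₁) / (y₁ + t₁) * (y₁ * ((y₂ + s₂) / (y₂ + t₂) * (y₂ * 0 + t₂ ^ 2 / y₂ * 1 + t₂ * (0 + (w - 4) * 0))) + t₁ ^ 2 / y₁ * ((y₂ + t₂) / (y₂ + s₂) * (y₂ * 0 + s₂ ^ 2 / y₂ * 1 + s₂ * (0 - (w - 4) * 0))) + t₁ * (((s₂ + t₂) * 0 + 2⁻¹ * w * (y₂ * 0 + s₂ * t₂ / y₂ * 1)) + (w - 4) * ((s₂ - t₂) * 0 + 2⁻¹ * (y₂ * 0 - s₂ * t₂ / y₂ * 1))))) := by
  try rw [g1]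
  try rw [g2]
  try rw [g3]
  try rw [g4]
  try rw [f1]
  try rw [f2]
  field_simp
  try (simp only [hd', hn', hq', hr']; ring)

lemma sw02 : ((z₂ + s₂) / (z₂ + t₂) * (z₂ * ((z₁ + s₁) / (z₁ + t₁) * (z₁ * 0 + t₁ ^ 2 / z₁ * 0 + t₁ * (1 + (w - 4) * 0))) + t₂ ^ 2 / z₂ * ((z₁ + t₁) / (z₁ + s₁) * (z₁ * 0 + s₁ ^ 2 / z₁ * 0 + s₁ * (1 - (w - 4) * 0))) + t₂ * (((s₁ + t₁) * 1 + 2⁻¹ * w * (z₁ * 0 + s₁ * t₁ / z₁ * 0)) + (w - 4) * ((s₁ - t₁) * 0 + 2⁻¹ * (z₁ * 0 - s₁ * t₁ / z₁ * 0))))) =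
    ((y₁ + s₁) / (y₁ + t₁) * (y₁ * ((y₂ + s₂) / (y₂ + t₂) * (y₂ * 0 + t₂ ^ 2 / y₂ * 0 + t₂ * (1 + (w - 4) * 0))) + t₁ ^ 2 / y₁ * ((y₂ + t₂) / (y₂ + s₂) * (y₂ * 0 + s₂ ^ 2 / y₂ * 0 + s₂ * (1 - (w - 4) * 0))) + t₁ * (((s₂ + t₂) * 1 + 2⁻¹ * w * (y₂ * 0 + s₂ * t₂ / y₂ * 0)) + (w - 4) * ((s₂ - t₂) * 0 + 2⁻¹ * (y₂ * 0 - s₂ * t₂ / y₂ * 0))))) := by
  try rw [g1]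
  try rw [g2]
  try rw [g3]
  try rw [g4]
  try rw [f1]
  try rw [f2]
  field_simp
  try (simp only [hd', hn', hq', hr']; ring)

lemma sw03 : ((z₂ + s₂) / (z₂ + t₂) * (z₂ * ((z₁ + s₁) / (z₁ + t₁) * (z₁ * 0 + t₁ ^ 2 / z₁ * 0 + t₁ * (0 + (w - 4) * 1))) + t₂ ^ 2 / z₂ * ((z₁ + t₁) / (z₁ + s₁) * (z₁ * 0 + s₁ ^ 2 / z₁ * 0 + s₁ * (0 - (w - 4) * 1))) + t₂ * (((s₁ + t₁) * 0 + 2⁻¹ * w * (z₁ * 0 + s₁ * t₁ / z₁ * 0)) + (w - 4) * ((s₁ - t₁) * 1 + 2⁻¹ * (z₁ * 0 - s₁ * t₁ / z₁ * 0))))) =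
    ((y₁ + s₁) / (y₁ + t₁) * (y₁ * ((y₂ + s₂) / (y₂ + t₂) * (y₂ * 0 + t₂ ^ 2 / y₂ * 0 + t₂ * (0 + (w - 4) * 1))) + t₁ ^ 2 / y₁ * ((y₂ + t₂) / (y₂ + s₂) * (y₂ * 0 + s₂ ^ 2 / y₂ * 0 + s₂ * (0 - (w - 4) * 1))) + t₁ * (((s₂ + t₂) * 0 + 2⁻¹ * w * (y₂ * 0 + s₂ * t₂ / y₂ * 0)) + (w - 4) * ((s₂ - t₂) * 1 + 2⁻¹ * (y₂ * 0 - s₂ * t₂ / y₂ * 0))))) := by
  try rw [g1]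
  try rw [g2]
  try rw [g3]
  try rw [g4]
  try rw [f1]
  try rw [f2]
  field_simp
  try (simp only [hd', hn', hq', hr']; ring)

lemma sw10 : ((z₂ + t₂) / (z₂ + s₂) * (z₂ * ((z₁ + s₁) / (z₁ + t₁) * (z₁ * 1 + t₁ ^ 2 / z₁ * 0 + t₁ * (0 + (w - 4) * 0))) + s₂ ^ 2 / z₂ * ((z₁ + t₁) / (z₁ + s₁) * (z₁ * 1 + s₁ ^ 2 / z₁ * 0 + s₁ * (0 - (w - 4) * 0))) + s₂ * (((s₁ + t₁) * 0 + 2⁻¹ * w * (z₁ * 1 + s₁ * t₁ / z₁ * 0)) - (w - 4) * ((s₁ - t₁) * 0 + 2⁻¹ * (z₁ * 1 - s₁ * t₁ / z₁ * 0))))) =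
    ((y₁ + t₁) / (y₁ + s₁) * (y₁ * ((y₂ + s₂) / (y₂ + t₂) * (y₂ * 1 + t₂ ^ 2 / y₂ * 0 + t₂ * (0 + (w - 4) * 0))) + s₁ ^ 2 / y₁ * ((y₂ + t₂) / (y₂ + s₂) * (y₂ * 1 + s₂ ^ 2 / y₂ * 0 + s₂ * (0 - (w - 4) * 0))) + s₁ * (((s₂ + t₂) * 0 + 2⁻¹ * w * (y₂ * 1 + s₂ * t₂ / y₂ * 0)) - (w - 4) * ((s₂ - t₂) * 0 + 2⁻¹ * (y₂ * 1 - s₂ * t₂ / y₂ * 0))))) := by
  try rw [g1]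
  try rw [g2]
  try rw [g3]
  try rw [g4]
  try rw [f1]
  try rw [f2]
  field_simp
  try (simp only [hd', hn', hq', hr']; ring)

lemma sw11 : ((z₂ + t₂) / (z₂ + s₂) * (z₂ * ((z₁ + s₁) / (z₁ + t₁) * (z₁ * 0 + t₁ ^ 2 / z₁ * 1 + t₁ * (0 + (w - 4) * 0))) + s₂ ^ 2 / z₂ * ((z₁ + t₁) / (z₁ + s₁) * (z₁ * 0 + s₁ ^ 2 / z₁ * 1 + s₁ * (0 - (w - 4) * 0))) + s₂ * (((s₁ + t₁) * 0 + 2⁻¹ * w * (z₁ * 0 + s₁ * t₁ / z₁ * 1)) - (w - 4) * ((s₁ - t₁) * 0 + 2⁻¹ * (z₁ * 0 - s₁ * t₁ / z₁ * 1))))) =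
    ((y₁ + t₁) / (y₁ + s₁) * (y₁ * ((y₂ + s₂) / (y₂ + t₂) * (y₂ * 0 + t₂ ^ 2 / y₂ * 1 + t₂ * (0 + (w - 4) * 0))) + s₁ ^ 2 / y₁ * ((y₂ + t₂) / (y₂ + s₂) * (y₂ * 0 + s₂ ^ 2 / y₂ * 1 + s₂ * (0 - (w - 4) * 0))) + s₁ * (((s₂ + t₂) * 0 + 2⁻¹ * w * (y₂ * 0 + s₂ * t₂ / y₂ * 1)) - (w - 4) * ((s₂ - t₂) * 0 + 2⁻¹ * (y₂ * 0 - s₂ * t₂ / y₂ * 1))))) := by
  try rw [g1]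
  try rw [g2]
  try rw [g3]
  try rw [g4]
  try rw [f1]
  try rw [f2]
  field_simp
  try (simp only [hd', hn', hq', hr']; ring)

lemma sw12 : ((z₂ + t₂) / (z₂ + s₂) * (z₂ * ((z₁ + s₁) / (z₁ + t₁) * (z₁ * 0 + t₁ ^ 2 / z₁ * 0 + t₁ * (1 + (w - 4) * 0))) + s₂ ^ 2 / z₂ * ((z₁ + t₁) / (z₁ + s₁) * (z₁ * 0 + s₁ ^ 2 / z₁ * 0 + s₁ * (1 - (w - 4) * 0))) + s₂ * (((s₁ + t₁) * 1 + 2⁻¹ * w * (z₁ * 0 + s₁ * t₁ / z₁ * 0)) - (w - 4) * ((s₁ - t₁) * 0 + 2⁻¹ * (z₁ * 0 - s₁ * t₁ / z₁ * 0))))) =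
    ((y₁ + t₁) / (y₁ + s₁) * (y₁ * ((y₂ + s₂) / (y₂ + t₂) * (y₂ * 0 + t₂ ^ 2 / y₂ * 0 + t₂ * (1 + (w - 4) * 0))) + s₁ ^ 2 / y₁ * ((y₂ + t₂) / (y₂ + s₂) * (y₂ * 0 + s₂ ^ 2 / y₂ * 0 + s₂ * (1 - (w - 4) * 0))) + s₁ * (((s₂ + t₂) * 1 + 2⁻¹ * w * (y₂ * 0 + s₂ * t₂ / y₂ * 0)) - (w - 4) * ((s₂ - t₂) * 0 + 2⁻¹ * (y₂ * 0 - s₂ * t₂ / y₂ * 0))))) := by
  try rw [g1]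
  try rw [g2]
  try rw [g3]
  try rw [g4]
  try rw [f1]
  try rw [f2]
  field_simp
  try (simp only [hd', hn', hq', hr']; ring)

lemma sw13 : ((z₂ + t₂) / (z₂ + s₂) * (z₂ * ((z₁ + s₁) / (z₁ + t₁) * (z₁ * 0 + t₁ ^ 2 / z₁ * 0 + t₁ * (0 + (w - 4) * 1))) + s₂ ^ 2 / z₂ * ((z₁ + t₁) / (z₁ + s₁) * (z₁ * 0 + s₁ ^ 2 / z₁ * 0 + s₁ * (0 - (w - 4) * 1))) + s₂ * (((s₁ + t₁) * 0 + 2⁻¹ * w * (z₁ * 0 + s₁ * t₁ / z₁ * 0)) - (w - 4) * ((s₁ - t₁) * 1 + 2⁻¹ * (z₁ * 0 - s₁ * t₁ / z₁ * 0))))) =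
    ((y₁ + t₁) / (y₁ + s₁) * (y₁ * ((y₂ + s₂) / (y₂ + t₂) * (y₂ * 0 + t₂ ^ 2 / y₂ * 0 + t₂ * (0 + (w - 4) * 1))) + s₁ ^ 2 / y₁ * ((y₂ + t₂) / (y₂ + s₂) * (y₂ * 0 + s₂ ^ 2 / y₂ * 0 + s₂ * (0 - (w - 4) * 1))) + s₁ * (((s₂ + t₂) * 0 + 2⁻¹ * w * (y₂ * 0 + s₂ * t₂ / y₂ * 0)) - (w - 4) * ((s₂ - t₂) * 1 + 2⁻¹ * (y₂ * 0 - s₂ * t₂ / y₂ * 0))))) := by
  try rw [g1]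
  try rw [g2]
  try rw [g3]
  try rw [g4]
  try rw [f1]
  try rw [f2]
  field_simp
  try (simp only [hd', hn', hq', hr']; ring)

lemma sw20 : ((s₂ + t₂) * ((s₁ + t₁) * 0 + 2⁻¹ * w * (z₁ * 1 + s₁ * t₁ / z₁ * 0)) + 2⁻¹ * w * (z₂ * ((z₁ + s₁) / (z₁ + t₁) * (z₁ * 1 + t₁ ^ 2 / z₁ * 0 + t₁ * (0 + (w - 4) * 0))) + s₂ * t₂ / z₂ * ((z₁ + t₁) / (z₁ + s₁) * (z₁ * 1 + s₁ ^ 2 / z₁ * 0 + s₁ * (0 - (w - 4) * 0))))) =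
    ((s₁ + t₁) * ((s₂ + t₂) * 0 + 2⁻¹ * w * (y₂ * 1 + s₂ * t₂ / y₂ * 0)) + 2⁻¹ * w * (y₁ * ((y₂ + s₂) / (y₂ + t₂) * (y₂ * 1 + t₂ ^ 2 / y₂ * 0 + t₂ * (0 + (w - 4) * 0))) + s₁ * t₁ / y₁ * ((y₂ + t₂) / (y₂ + s₂) * (y₂ * 1 + s₂ ^ 2 / y₂ * 0 + s₂ * (0 - (w - 4) * 0))))) := by
  try rw [g1]
  try rw [g2]
  try rw [g3]
  try rw [g4]
  try rw [f1]
  try rw [f2]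
  field_simp
  try (simp only [hd', hn', hq', hr']; ring)

lemma sw21 : ((s₂ + t₂) * ((s₁ + t₁) * 0 + 2⁻¹ * w * (z₁ * 0 + s₁ * t₁ / z₁ * 1)) + 2⁻¹ * w * (z₂ * ((z₁ + s₁) / (z₁ + t₁) * (z₁ * 0 + t₁ ^ 2 / z₁ * 1 + t₁ * (0 + (w - 4) * 0))) + s₂ * t₂ / z₂ * ((z₁ + t₁) / (z₁ + s₁) * (z₁ * 0 + s₁ ^ 2 / z₁ * 1 + s₁ * (0 - (w - 4) * 0))))) =
    ((s₁ + t₁) * ((s₂ + t₂) * 0 + 2⁻¹ * w * (y₂ * 0 + s₂ * t₂ / y₂ * 1)) + 2⁻¹ * w * (y₁ * ((y₂ + s₂) / (y₂ + t₂) * (y₂ * 0 + t₂ ^ 2 / y₂ * 1 + t₂ * (0 + (w - 4) * 0))) + s₁ * t₁ / y₁ * ((y₂ + t₂) / (y₂ + s₂) * (y₂ * 0 + s₂ ^ 2 / y₂ * 1 + s₂ * (0 - (w - 4) * 0))))) := by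
  try rw [g1]
  try rw [g2]
  try rw [g3]
  try rw [g4]
  try rw [f1]
  try rw [f2]
  field_simp
  try (simp only [hd', hn', hq', hr']; ring)

lemma sw22 : ((s₂ + t₂) * ((s₁ + t₁) * 1 + 2⁻¹ * w * (z₁ * 0 + s₁ * t₁ / z₁ * 0)) + 2⁻¹ * w * (z₂ * ((z₁ + s₁) / (z₁ + t₁) * (z₁ * 0 + t₁ ^ 2 / z₁ * 0 + t₁ * (1 + (w - 4) * 0))) + s₂ * t₂ / z₂ * ((z₁ + t₁) / (z₁ + s₁) * (z₁ * 0 + s₁ ^ 2 / z₁ * 0 + s₁ * (1 - (w - 4) * 0))))) =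
    ((s₁ + t₁) * ((s₂ + t₂) * 1 + 2⁻¹ * w * (y₂ * 0 + s₂ * t₂ / y₂ * 0)) + 2⁻¹ * w * (y₁ * ((y₂ + s₂) / (y₂ + t₂) * (y₂ * 0 + t₂ ^ 2 / y₂ * 0 + t₂ * (1 + (w - 4) * 0))) + s₁ * t₁ / y₁ * ((y₂ + t₂) / (y₂ + s₂) * (y₂ * 0 + s₂ ^ 2 / y₂ * 0 + s₂ * (1 - (w - 4) * 0))))) := by
  try rw [g1]
  try rw [g2]
  try rw [g3]
  try rw [g4]
  try rw [f1]
  try rw [f2]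
  field_simp
  try (simp only [hd', hn', hq', hr']; ring)

lemma sw23 : ((s₂ + t₂) * ((s₁ + t₁) * 0 + 2⁻¹ * w * (z₁ * 0 + s₁ * t₁ / z₁ * 0)) + 2⁻¹ * w * (z₂ * ((z₁ + s₁) / (z₁ + t₁) * (z₁ * 0 + t₁ ^ 2 / z₁ * 0 + t₁ * (0 + (w - 4) * 1))) + s₂ * t₂ / z₂ * ((z₁ + t₁) / (z₁ + s₁) * (z₁ * 0 + s₁ ^ 2 / z₁ * 0 + s₁ * (0 - (w - 4) * 1))))) =
    ((s₁ + t₁) * ((s₂ + t₂) * 0 + 2⁻¹ * w * (y₂ * 0 + s₂ * t₂ / y₂ * 0)) + 2⁻¹ * w * (y₁ * ((y₂ + s₂) / (y₂ + t₂) * (y₂ * 0 + t₂ ^ 2 / y₂ * 0 + t₂ * (0 + (w - 4) * 1))) + s₁ * t₁ / y₁ * ((y₂ + t₂) / (y₂ + s₂) * (y₂ * 0 + s₂ ^ 2 / y₂ * 0 + s₂ * (0 - (w - 4) * 1))))) := by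
  try rw [g1]
  try rw [g2]
  try rw [g3]
  try rw [g4]
  try rw [f1]
  try rw [f2]
  field_simp
  try (simp only [hd', hn', hq', hr']; ring)

lemma sw30 : ((s₂ - t₂) * ((s₁ - t₁) * 0 + 2⁻¹ * (z₁ * 1 - s₁ * t₁ / z₁ * 0)) + 2⁻¹ * (z₂ * ((z₁ + s₁) / (z₁ + t₁) * (z₁ * 1 + t₁ ^ 2 / z₁ * 0 + t₁ * (0 + (w - 4) * 0))) - s₂ * t₂ / z₂ * ((z₁ + t₁) / (z₁ + s₁) * (z₁ * 1 + s₁ ^ 2 / z₁ * 0 + s₁ * (0 - (w - 4) * 0))))) =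
    ((s₁ - t₁) * ((s₂ - t₂) * 0 + 2⁻¹ * (y₂ * 1 - s₂ * t₂ / y₂ * 0)) + 2⁻¹ * (y₁ * ((y₂ + s₂) / (y₂ + t₂) * (y₂ * 1 + t₂ ^ 2 / y₂ * 0 + t₂ * (0 + (w - 4) * 0))) - s₁ * t₁ / y₁ * ((y₂ + t₂) / (y₂ + s₂) * (y₂ * 1 + s₂ ^ 2 / y₂ * 0 + s₂ * (0 - (w - 4) * 0))))) := by
  try rw [g1]
  try rw [g2]
  try rw [g3]
  try rw [g4]
  try rw [f1]
  try rw [f2]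
  field_simp
  try (simp only [hd', hn', hq', hr']; ring)

lemma sw31 : ((s₂ - t₂) * ((s₁ - t₁) * 0 + 2⁻¹ * (z₁ * 0 - s₁ * t₁ / z₁ * 1)) + 2⁻¹ * (z₂ * ((z₁ + s₁) / (z₁ + t₁) * (z₁ * 0 + t₁ ^ 2 / z₁ * 1 + t₁ * (0 + (w - 4) * 0))) - s₂ * t₂ / z₂ * ((z₁ + t₁) / (z₁ + s₁) * (z₁ * 0 + s₁ ^ 2 / z₁ * 1 + s₁ * (0 - (w - 4) * 0))))) =
    ((s₁ - t₁) * ((s₂ - t₂) * 0 + 2⁻¹ * (y₂ * 0 - s₂ * t₂ / y₂ * 1)) + 2⁻¹ * (y₁ * ((y₂ + s₂) / (y₂ + t₂) * (y₂ * 0 + t₂ ^ 2 / y₂ * 1 + t₂ * (0 + (w - 4) * 0))) - s₁ * t₁ / y₁ * ((y₂ + t₂) / (y₂ + s₂) * (y₂ * 0 + s₂ ^ 2 / y₂ * 1 + s₂ * (0 - (w - 4) * 0))))) := by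
  try rw [g1]
  try rw [g2]
  try rw [g3]
  try rw [g4]
  try rw [f1]
  try rw [f2]
  field_simp
  try (simp only [hd', hn', hq', hr']; ring)

lemma sw32 : ((s₂ - t₂) * ((s₁ - t₁) * 0 + 2⁻¹ * (z₁ * 0 - s₁ * t₁ / z₁ * 0)) + 2⁻¹ * (z₂ * ((z₁ + s₁) / (z₁ + t₁) * (z₁ * 0 + t₁ ^ 2 / z₁ * 0 + t₁ * (1 + (w - 4) * 0))) - s₂ * t₂ / z₂ * ((z₁ + t₁) / (z₁ + s₁) * (z₁ * 0 + s₁ ^ 2 / z₁ * 0 + s₁ * (1 - (w - 4) * 0))))) =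
    ((s₁ - t₁) * ((s₂ - t₂) * 0 + 2⁻¹ * (y₂ * 0 - s₂ * t₂ / y₂ * 0)) + 2⁻¹ * (y₁ * ((y₂ + s₂) / (y₂ + t₂) * (y₂ * 0 + t₂ ^ 2 / y₂ * 0 + t₂ * (1 + (w - 4) * 0))) - s₁ * t₁ / y₁ * ((y₂ + t₂) / (y₂ + s₂) * (y₂ * 0 + s₂ ^ 2 / y₂ * 0 + s₂ * (1 - (w - 4) * 0))))) := by
  try rw [g1]
  try rw [g2]
  try rw [g3]
  try rw [g4]
  try rw [f1]
  try rw [f2]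
  field_simp
  try (simp only [hd', hn', hq', hr']; ring)

lemma sw33 : ((s₂ - t₂) * ((s₁ - t₁) * 1 + 2⁻¹ * (z₁ * 0 - s₁ * t₁ / z₁ * 0)) + 2⁻¹ * (z₂ * ((z₁ + s₁) / (z₁ + t₁) * (z₁ * 0 + t₁ ^ 2 / z₁ * 0 + t₁ * (0 + (w - 4) * 1))) - s₂ * t₂ / z₂ * ((z₁ + t₁) / (z₁ + s₁) * (z₁ * 0 + s₁ ^ 2 / z₁ * 0 + s₁ * (0 - (w - 4) * 1))))) =
    ((s₁ - t₁) * ((s₂ - t₂) * 1 + 2⁻¹ * (y₂ * 0 - s₂ * t₂ / y₂ * 0)) + 2⁻¹ * (y₁ * ((y₂ + s₂) / (y₂ + t₂) * (y₂ * 0 + t₂ ^ 2 / y₂ * 0 + t₂ * (0 + (w - 4) * 1))) - s₁ * t₁ / y₁ * ((y₂ + t₂) / (y₂ + s₂) * (y₂ * 0 + s₂ ^ 2 / y₂ * 0 + s₂ * (0 - (w - 4) * 1))))) := by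
  try rw [g1]
  try rw [g2]
  try rw [g3]
  try rw [g4]
  try rw [f1]
  try rw [f2]
  field_simp
  try (simp only [hd', hn', hq', hr']; ring)

end

end Pool.Agent.Helper15.VN
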