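import Mathlib
import Pool.Agent.Helper15.VN.Alg

/-!
# The family of chains with the same four-vector up to the torus; uniqueness of the factorisation
-/

set_option linter.unusedSectionVars false

namespace Pool.Agent.Helper15.VN

open Polynomial Pool.Agent.Helper83.VN

variable {ι F : Type*} [Field F] [CharZero F]

/-- The relations for one step of the family. -/
lemma dn_rel {e : Ed ι F} (hz : e.z ≠ 0) {x : F} (hd : (e.z + e.s) - (e.z + e.t) * x ≠ 0) :
    e.z * dn e x = (e.s * (e.z + e.t) * x - e.t * (e.z + e.s)) / ((e.z + e.s) - (e.z + e.t) * x) ∧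
    e.z * dn e x + e.s = e.κ * (e.z + e.s) / ((e.z + e.s) - (e.z + e.t) * x) ∧
    e.z * dn e x + e.t = e.κ * (e.z + e.t) * x / ((e.z + e.s) - (e.z + e.t) * x) := by
  have h0 : e.z * dn e x =
      (e.s * (e.z + e.t) * x - e.t * (e.z + e.s)) / ((e.z + e.s) - (e.z + e.t) * x) := by
    unfold dn
    field_simp
  refine ⟨h0, ?_, ?_⟩
  · rw [h0, div_add' _ _ _ hd, ← s_sub_t e]
    congr 1
    ring
  · rw [h0, div_add' _ _ _ hd, ← s_sub_t e]
    congr 1
    ring

lemma dn_den {e : Ed ι F} {x : F} (h : dn e x ≠ 0) : (e.z + e.s) - (e.z + e.t) * x ≠ 0 := by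
  intro h0
  apply h
  unfold dn
  rw [h0, mul_zero, div_zero]

lemma act_fam {e : Ed ι F} (f : e.Fine) {x : F} (hx : x ≠ 0)
    (f' : (⟨e.i, e.b, e.κ, e.z * dn e x⟩ : Ed ι F).Fine) (V : V4 F) :
    act ⟨e.i, e.b, e.κ, e.z * dn e x⟩ (V.tor (dn e x)) = (act e V).tor x := by
  obtain ⟨-, hκ, hs, ht, hz, hzs, hzt⟩ := f
  have hy : dn e x ≠ 0 := right_ne_zero_of_mul f'.z
  have hd := dn_den hy
  obtain ⟨-, h1, h2⟩ := dn_rel hz hd
  have es : (⟨e.i, e.b, e.κ, e.z * dn e x⟩ : Ed ι F).s = e.s := rfl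
  have et : (⟨e.i, e.b, e.κ, e.z * dn e x⟩ : Ed ι F).t = e.t := rfl
  have t1 : ∀ w, (V.tor (dn e x)).U.eval w = (dn e x)⁻¹ * V.U.eval w := fun w => by
    simp [V4.tor]
  have t2 : ∀ w, (V.tor (dn e x)).U'.eval w = dn e x * V.U'.eval w := fun w => by
    simp [V4.tor]
  have t3 : ∀ w, (V.tor (dn e x)).Q.eval w = V.Q.eval w := fun w => rfl
  have t4 : ∀ w, (V.tor (dn e x)).R.eval w = V.R.eval w := fun w => rfl
  have r1 : ∀ w, ((act e V).tor x).U.eval w = x⁻¹ * (act e V).U.eval w := fun w => by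
    simp [V4.tor]
  have r2 : ∀ w, ((act e V).tor x).U'.eval w = x * (act e V).U'.eval w := fun w => by
    simp [V4.tor]
  have r3 : ∀ w, ((act e V).tor x).Q.eval w = (act e V).Q.eval w := fun w => rfl
  have r4 : ∀ w, ((act e V).tor x).R.eval w = (act e V).R.eval w := fun w => rfl
  generalize dn e x = y at *
  generalize hD : (e.z + e.s) - (e.z + e.t) * x = D at *
  apply v4_ext
  · intro w
    rw [r1, act_U_eval, act_U_eval]
    simp only [es, et, t1, t2, t3, t4]
    rw [h1, h2]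
    field_simp
  · intro w
    rw [r2, act_U'_eval, act_U'_eval]
    simp only [es, et, t1, t2, t3, t4]
    rw [h1, h2]
    field_simp
  · intro w
    rw [r3, act_Q_eval, act_Q_eval]
    simp only [es, et, t1, t2, t3]
    field_simp
  · intro w
    rw [r4, act_R_eval, act_R_eval]
    simp only [es, et, t1, t2, t4]
    field_simp

theorem vec_fam {c : List (Ed ι F)} {x : F} (hc : FineC c) (hx : x ≠ 0) (h : FineC (fam c x)) :
    vec (fam c x) = (vec c).tor x := by
  induction c generalizing x with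
  | nil =>
    apply V4.ext <;> simp [vec, fam, V4.tor]
  | cons e c ih =>
    have f' : (⟨e.i, e.b, e.κ, e.z * dn e x⟩ : Ed ι F).Fine := h.1
    have hy : dn e x ≠ 0 := right_ne_zero_of_mul f'.z
    change act _ (vec (fam c (dn e x))) = (act e (vec c)).tor x
    rw [ih hc.2.2.2.2 hy h.2.2.2.2, act_fam hc.1 hx f']

lemma dn_one {e : Ed ι F} (f : e.Fine) : dn e 1 = 1 := by
  obtain ⟨-, hκ, hs, ht, hz, hzs, hzt⟩ := f
  unfold dn
  have h1 : e.s - e.t ≠ 0 := by rw [s_sub_t]; exact hκ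
  rw [div_eq_one_iff_eq]
  · ring
  · rw [mul_one, add_sub_add_left_eq_sub]
    exact mul_ne_zero hz h1

theorem fam_one {c : List (Ed ι F)} (hc : FineC c) : fam c 1 = c := by
  induction c with
  | nil => rfl
  | cons e c ih =>
    unfold fam
    rw [dn_one hc.1, ih hc.2.2.2.2, mul_one]

lemma dn_dn {e : Ed ι F} (f : e.Fine) {x y : F}
    (f' : (⟨e.i, e.b, e.κ, e.z * dn e x⟩ : Ed ι F).Fine)
    (f'' : (⟨e.i, e.b, e.κ, e.z * dn e (x * y)⟩ : Ed ι F).Fine) :
    dn e x * dn ⟨e.i, e.b, e.κ, e.z * dn e x⟩ y = dn e (x * y) := by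
  obtain ⟨-, hκ, hs, ht, hz, hzs, hzt⟩ := f
  have hy : dn e x ≠ 0 := right_ne_zero_of_mul f'.z
  have hy' : dn e (x * y) ≠ 0 := right_ne_zero_of_mul f''.z
  have hd := dn_den hy
  have hd' := dn_den hy'
  obtain ⟨-, h1, h2⟩ := dn_rel hz hd
  have es : (⟨e.i, e.b, e.κ, e.z * dn e x⟩ : Ed ι F).s = e.s := rfl
  have et : (⟨e.i, e.b, e.κ, e.z * dn e x⟩ : Ed ι F).t = e.t := rfl
  have e1 : dn (⟨e.i, e.b, e.κ, e.z * dn e x⟩ : Ed ι F) y =
      (e.s * (e.z * dn e x + e.t) * y - e.t * (e.z * dn e x + e.s)) /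
        (e.z * dn e x * ((e.z * dn e x + e.s) - (e.z * dn e x + e.t) * y)) := rfl
  have e2 : dn e (x * y) = (e.s * (e.z + e.t) * (x * y) - e.t * (e.z + e.s)) /
      (e.z * ((e.z + e.s) - (e.z + e.t) * (x * y))) := rfl
  rw [e1, h1, h2, e2]
  have h3 : (e.z + e.s) - (e.z + e.t) * x * y ≠ 0 := by
    rwa [mul_assoc]
  have h4 : e.κ * (e.z + e.s) / ((e.z + e.s) - (e.z + e.t) * x) -
      e.κ * (e.z + e.t) * x / ((e.z + e.s) - (e.z + e.t) * x) * y =
      e.κ * ((e.z + e.s) - (e.z + e.t) * x * y) / ((e.z + e.s) - (e.z + e.t) * x) := by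
    field_simp
  rw [h4]
  field_simp

theorem fam_fam {c : List (Ed ι F)} {x y : F} (hc : FineC c) (h : FineC (fam c x))
    (h' : FineC (fam c (x * y))) : fam (fam c x) y = fam c (x * y) := by
  induction c generalizing x y with
  | nil => rfl
  | cons e c ih =>
    have e1 := dn_dn hc.1 (x := x) (y := y) h.1 h'.1
    have e2 := ih (x := dn e x) (y := dn ⟨e.i, e.b, e.κ, e.z * dn e x⟩ y) hc.2.2.2.2 h.2.2.2.2 (by
      rw [e1]
      exact h'.2.2.2.2)
    rw [e1] at e2
    change (⟨e.i, e.b, e.κ, e.z * dn e x * dn ⟨e.i, e.b, e.κ, e.z * dn e x⟩ y⟩ : Ed ι F) ::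
      fam (fam c (dn e x)) (dn ⟨e.i, e.b, e.κ, e.z * dn e x⟩ y) = _
    rw [e2, mul_assoc, e1]
    rfl

/-! ### Uniqueness -/

/-- The inverse action, up to the factor `b ^ 2 - σ β w`. -/
noncomputable def inva (e : Ed ι F) (V : V4 F) : V4 F where
  U := C (e.s ^ 2 * (e.z + e.t) / (e.z * (e.z + e.s))) * V.U +
    C (e.t ^ 2 * (e.z + e.s) / (e.z * (e.z + e.t))) * V.U' -
    C (e.s * e.t / e.z) * (V.Q + (X - 4) * V.R)
  U' := C (e.z * (e.z + e.t) / (e.z + e.s)) * V.U + C (e.z * (e.z + e.s) / (e.z + e.t)) * V.U' -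
    C e.z * (V.Q - (X - 4) * V.R)
  Q := C e.b * V.Q - C 2⁻¹ * X * (C (e.s * (e.z + e.t) / (e.z + e.s)) * V.U +
    C (e.t * (e.z + e.s) / (e.z + e.t)) * V.U')
  R := C e.κ * V.R - C 2⁻¹ * (C (e.s * (e.z + e.t) / (e.z + e.s)) * V.U -
    C (e.t * (e.z + e.s) / (e.z + e.t)) * V.U')

section

variable (e : Ed ι F) (V : V4 F) (w : F)

lemma inva_U_eval : (inva e V).U.eval w = e.s ^ 2 * (e.z + e.t) / (e.z * (e.z + e.s)) * V.U.eval w +
    e.t ^ 2 * (e.z + e.s) / (e.z * (e.z + e.t)) * V.U'.eval w -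
    e.s * e.t / e.z * (V.Q.eval w + (w - 4) * V.R.eval w) := by
  simp [inva]

lemma inva_U'_eval : (inva e V).U'.eval w = e.z * (e.z + e.t) / (e.z + e.s) * V.U.eval w +
    e.z * (e.z + e.s) / (e.z + e.t) * V.U'.eval w -
    e.z * (V.Q.eval w - (w - 4) * V.R.eval w) := by
  simp [inva]

lemma inva_Q_eval : (inva e V).Q.eval w = e.b * V.Q.eval w -
    2⁻¹ * w * (e.s * (e.z + e.t) / (e.z + e.s) * V.U.eval w +
    e.t * (e.z + e.s) / (e.z + e.t) * V.U'.eval w) := by
  simp [inva]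

lemma inva_R_eval : (inva e V).R.eval w = e.κ * V.R.eval w -
    2⁻¹ * (e.s * (e.z + e.t) / (e.z + e.s) * V.U.eval w -
    e.t * (e.z + e.s) / (e.z + e.t) * V.U'.eval w) := by
  simp [inva]

end

/-- The product of a four-vector with a polynomial. -/
noncomputable def smu (p : F[X]) (V : V4 F) : V4 F := ⟨p * V.U, p * V.U', p * V.Q, p * V.R⟩

lemma inva_act {e : Ed ι F} (f : e.Fine) (V : V4 F) :
    inva e (act e V) = smu (C (e.b ^ 2) - C (e.s * e.t) * X) V := by
  obtain ⟨-, hκ, hs, ht, hz, hzs, hzt⟩ := f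
  have r1 : ∀ w, (smu (C (e.b ^ 2) - C (e.s * e.t) * X) V).U.eval w =
      (e.b ^ 2 - e.s * e.t * w) * V.U.eval w := fun w => by simp [smu]
  have r2 : ∀ w, (smu (C (e.b ^ 2) - C (e.s * e.t) * X) V).U'.eval w =
      (e.b ^ 2 - e.s * e.t * w) * V.U'.eval w := fun w => by simp [smu]
  have r3 : ∀ w, (smu (C (e.b ^ 2) - C (e.s * e.t) * X) V).Q.eval w =
      (e.b ^ 2 - e.s * e.t * w) * V.Q.eval w := fun w => by simp [smu]
  have r4 : ∀ w, (smu (C (e.b ^ 2) - C (e.s * e.t) * X) V).R.eval w =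
      (e.b ^ 2 - e.s * e.t * w) * V.R.eval w := fun w => by simp [smu]
  apply v4_ext
  · intro w
    rw [r1, inva_U_eval, act_U_eval, act_U'_eval, act_Q_eval, act_R_eval, ← s_add_t e, ← s_sub_t e]
    field_simp
    ring
  · intro w
    rw [r2, inva_U'_eval, act_U_eval, act_U'_eval, act_Q_eval, act_R_eval, ← s_add_t e, ← s_sub_t e]
    field_simp
    ring
  · intro w
    rw [r3, inva_Q_eval, act_U_eval, act_U'_eval, act_Q_eval, ← s_add_t e]
    field_simp
    ring
  · intro w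
    rw [r4, inva_R_eval, act_U_eval, act_U'_eval, act_R_eval, ← s_add_t e, ← s_sub_t e]
    field_simp
    ring

lemma act_inva {e : Ed ι F} (f : e.Fine) (V : V4 F) :
    act e (inva e V) = smu (C (e.b ^ 2) - C (e.s * e.t) * X) V := by
  obtain ⟨-, hκ, hs, ht, hz, hzs, hzt⟩ := f
  have r1 : ∀ w, (smu (C (e.b ^ 2) - C (e.s * e.t) * X) V).U.eval w =
      (e.b ^ 2 - e.s * e.t * w) * V.U.eval w := fun w => by simp [smu]
  have r2 : ∀ w, (smu (C (e.b ^ 2) - C (e.s * e.t) * X) V).U'.eval w =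
      (e.b ^ 2 - e.s * e.t * w) * V.U'.eval w := fun w => by simp [smu]
  have r3 : ∀ w, (smu (C (e.b ^ 2) - C (e.s * e.t) * X) V).Q.eval w =
      (e.b ^ 2 - e.s * e.t * w) * V.Q.eval w := fun w => by simp [smu]
  have r4 : ∀ w, (smu (C (e.b ^ 2) - C (e.s * e.t) * X) V).R.eval w =
      (e.b ^ 2 - e.s * e.t * w) * V.R.eval w := fun w => by simp [smu]
  apply v4_ext
  · intro w
    rw [r1, act_U_eval, inva_U_eval, inva_U'_eval, inva_Q_eval, inva_R_eval, ← s_add_t e, ← s_sub_t e]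
    field_simp
    ring
  · intro w
    rw [r2, act_U'_eval, inva_U_eval, inva_U'_eval, inva_Q_eval, inva_R_eval, ← s_add_t e, ← s_sub_t e]
    field_simp
    ring
  · intro w
    rw [r3, act_Q_eval, inva_U_eval, inva_U'_eval, inva_Q_eval, ← s_add_t e]
    field_simp
    ring
  · intro w
    rw [r4, act_R_eval, inva_U_eval, inva_U'_eval, inva_R_eval, ← s_add_t e, ← s_sub_t e]
    field_simp
    ring

lemma fac_ne {e : Ed ι F} (f : e.Fine) : (C (e.b ^ 2) - C (e.s * e.t) * X : F[X]) ≠ 0 := by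
  intro h
  have h1 := congrArg (fun p => Polynomial.eval 0 p) h
  simp only [eval_sub, eval_C, eval_mul, eval_X, mul_zero, sub_zero, eval_zero] at h1
  exact pow_ne_zero 2 f.b h1

lemma smu_inj {p : F[X]} (hp : p ≠ 0) {V V' : V4 F} (h : smu p V = smu p V') : V = V' := by
  have h1 := congrArg V4.U h
  have h2 := congrArg V4.U' h
  have h3 := congrArg V4.Q h
  have h4 := congrArg V4.R h
  exact V4.ext (mul_left_cancel₀ hp h1) (mul_left_cancel₀ hp h2) (mul_left_cancel₀ hp h3)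
    (mul_left_cancel₀ hp h4)

lemma act_inj {e : Ed ι F} (f : e.Fine) {V V' : V4 F} (h : act e V = act e V') : V = V' := by
  apply smu_inj (fac_ne f)
  rw [← inva_act f, ← inva_act f, h]

/-- The outermost edge is determined by the four-vector. -/
lemma outer {e : Ed ι F} (f : e.Fine) (V : V4 F) :
    e.b * (act e V).U'.eval e.w * (e.z + e.s) = e.s * ((act e V).Q.eval e.w -
      e.b * e.κ / (e.s * e.t) * (act e V).R.eval e.w) * (e.z + e.t) := by
  obtain ⟨-, hκ, hs, ht, hz, hzs, hzt⟩ := f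
  rw [act_U'_eval, act_Q_eval, act_R_eval]
  have hw : e.w = e.b ^ 2 / (e.s * e.t) := rfl
  rw [hw, ← s_add_t e, ← s_sub_t e]
  generalize V.U.eval _ = u
  generalize V.U'.eval _ = u'
  generalize V.Q.eval _ = q
  generalize V.R.eval _ = r
  field_simp
  ring

theorem uniq {c c' : List (Ed ι F)} (hc : FineC c) (hc' : FineC c')
    (hl : c.map Ed.lab = c'.map Ed.lab) (hv : vec c = vec c') : c = c' := by
  induction c generalizing c' with
  | nil =>
    cases c' with
    | nil => rfl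
    | cons e' c' => simp at hl
  | cons e c ih =>
    cases c' with
    | nil => simp at hl
    | cons e' c' =>
      rw [List.map_cons, List.map_cons, List.cons.injEq] at hl
      obtain ⟨h1, h2⟩ := hl
      have hi : e.i = e'.i := congrArg Prod.fst h1
      have hb : e.b = e'.b := congrArg (fun p => p.2.1) h1
      have hκ : e.κ = e'.κ := congrArg (fun p => p.2.2) h1
      have hs : e.s = e'.s := by unfold Ed.s; rw [hb, hκ]
      have ht : e.t = e'.t := by unfold Ed.t; rw [hb, hκ]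
      have hw : e.w = e'.w := by unfold Ed.w; rw [hb, hs, ht]
      have f := hc.1
      have f' := hc'.1
      have o1 := outer f (vec c)
      have o2 := outer f' (vec c')
      change act e (vec c) = act e' (vec c') at hv
      rw [← hv, ← hs, ← ht, ← hw, ← hb, ← hκ] at o2
      have hU := hc.2.2.2.1
      have hz : e.z = e'.z := by
        have o3 : e.b * (act e (vec c)).U'.eval e.w * ((e.z + e.s) * (e'.z + e.t) -
            (e'.z + e.s) * (e.z + e.t)) = 0 := by
          linear_combination (e'.z + e.t) * o1 - (e.z + e.t) * o2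
        have o4 := (mul_eq_zero.mp o3).resolve_left (mul_ne_zero f.b hU)
        have o5 : (e.z - e'.z) * (e.s - e.t) = 0 := by linear_combination -o4
        rw [s_sub_t] at o5
        exact sub_eq_zero.mp ((mul_eq_zero.mp o5).resolve_right f.κ)
      have he : e = e' := Ed.ext hi hb hκ hz
      subst he
      rw [ih hc.2.2.2.2 hc'.2.2.2.2 h2 (act_inj f hv)]

end Pool.Agent.Helper15.VN
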