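import Mathlib
import Pool.Agent.Helper83.VN.Defs

/-!
# Values of chains at places: definitions (moved from `Helper83/VN/Iface.lean`)
-/

namespace Pool.Agent.Helper83.VN

open Polynomial VC VF

universe u

/-- `l'` is obtained from `l` by a permutation and changes of signs of the third entries. -/
def SgnPerm {ι F : Type*} [Field F] (l l' : List (ι × F × F)) : Prop :=
  ∃ l'' : List (ι × F × F), l''.Perm l ∧ List.Forall₂ (fun p q => q.1 = p.1 ∧ q.2.1 = p.2.1 ∧
    (q.2.2 = p.2.2 ∨ q.2.2 = -p.2.2)) l'' l'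

section places

variable {k : Type u} [Field k] {K : Type u} [Field K] [Algebra k K] {ι ι' : Type*}

/-- The four-vector `V₀` is the value of `V` at the place `v`. -/
def V4.Res (v : Place k K) (V : V4 K) (V₀ : V4 k) : Prop :=
  (∀ m, IsRes v (V.U.coeff m) (V₀.U.coeff m)) ∧ (∀ m, IsRes v (V.U'.coeff m) (V₀.U'.coeff m)) ∧
  (∀ m, IsRes v (V.Q.coeff m) (V₀.Q.coeff m)) ∧ (∀ m, IsRes v (V.R.coeff m) (V₀.R.coeff m))

/-- The edge `e₀` is the value of the edge `e` at the place `v` (no condition on the labels). -/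
def Ed.Res (v : Place k K) (e : Ed ι' K) (e₀ : Ed ι k) : Prop :=
  IsRes v e.b e₀.b ∧ IsRes v e.κ e₀.κ ∧ IsRes v e.z e₀.z

end places

end Pool.Agent.Helper83.VN
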