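import Mathlib
import Pool.Agent.Helper15.VN.RD

/-!
# Every order and all signs are reached by moves
-/

set_option linter.unusedSectionVars false

namespace Pool.Agent.Helper15.VN

open Pool.Agent.Helper83.VN

variable {ι F : Type*} [Field F] [CharZero F]

/-- Chains with labels `l'` are reached from all chains with labels `l`. -/
def Rch (l l' : List (ι × F × F)) : Prop :=
  ∀ c : List (Ed ι F), c.map Ed.lab = l →
    ∃ c', Relation.ReflTransGen Adj c c' ∧ c'.map Ed.lab = l'

lemma Rch.refl (l : List (ι × F × F)) : Rch l l := fun c hc => ⟨c, Relation.ReflTransGen.refl, hc⟩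

lemma Rch.trans {l l' l'' : List (ι × F × F)} (h : Rch l l') (h' : Rch l' l'') : Rch l l'' := by
  intro c hc
  obtain ⟨c', h1, h2⟩ := h c hc
  obtain ⟨c'', h3, h4⟩ := h' c' h2
  exact ⟨c'', h1.trans h3, h4⟩

lemma adj_cons {c c' : List (Ed ι F)} (e : Ed ι F) (h : Relation.ReflTransGen Adj c c') :
    Relation.ReflTransGen Adj (e :: c) (e :: c') := by
  induction h with
  | refl => exact Relation.ReflTransGen.refl
  | tail _ h ih => exact ih.tail (Adj.cons e h)

lemma Rch.cons {l l' : List (ι × F × F)} (p : ι × F × F) (h : Rch l l') :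
    Rch (p :: l) (p :: l') := by
  intro c hc
  cases c with
  | nil => simp at hc
  | cons e c =>
    rw [List.map_cons, List.cons.injEq] at hc
    obtain ⟨c', h1, h2⟩ := h c hc.2
    exact ⟨e :: c', adj_cons e h1, by rw [List.map_cons, hc.1, h2]⟩

lemma Rch.swap (p q : ι × F × F) (l : List (ι × F × F)) : Rch (p :: q :: l) (q :: p :: l) := by
  intro c hc
  match c, hc with
  | [], hc => simp at hc
  | [e], hc => simp at hc
  | e₂ :: e₁ :: c, hc =>
    rw [List.map_cons, List.map_cons, List.cons.injEq, List.cons.injEq] at hc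
    obtain ⟨h1, h2, h3⟩ := hc
    refine ⟨_, Relation.ReflTransGen.single (Adj.swap e₂ e₁ c), ?_⟩
    rw [List.map_cons, List.map_cons, h3, ← h1, ← h2]
    rfl

lemma Rch.perm {l l' : List (ι × F × F)} (h : l.Perm l') : Rch l l' := by
  induction h with
  | nil => exact Rch.refl _
  | cons x _ ih => exact ih.cons x
  | swap x y l => exact Rch.swap y x l
  | trans _ _ ih ih' => exact ih.trans ih'

lemma Rch.flip (p : ι × F × F) : Rch [p] [(p.1, p.2.1, -p.2.2)] := by
  intro c hc
  match c, hc with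
  | [], hc => simp at hc
  | [e], hc =>
    rw [List.map_cons, List.cons.injEq] at hc
    refine ⟨_, Relation.ReflTransGen.single (Adj.flip e), ?_⟩
    rw [← hc.1]
    rfl
  | e₂ :: e₁ :: c, hc => simp at hc

lemma Rch.app {l l' : List (ι × F × F)} (h : Rch l l') : ∀ m : List (ι × F × F),
    Rch (m ++ l) (m ++ l') := by
  intro m
  induction m with
  | nil => exact h
  | cons x m ih => exact ih.cons x

lemma Rch.head (p : ι × F × F) (l : List (ι × F × F)) :
    Rch (p :: l) ((p.1, p.2.1, -p.2.2) :: l) := by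
  have h1 : (p :: l).Perm (l ++ [p]) := (List.perm_append_singleton p l).symm
  have h2 : (l ++ [(p.1, p.2.1, -p.2.2)]).Perm ((p.1, p.2.1, -p.2.2) :: l) :=
    List.perm_append_singleton _ l
  exact ((Rch.perm h1).trans ((Rch.flip p).app l)).trans (Rch.perm h2)

lemma Rch.sgn {l l' : List (ι × F × F)} (h : List.Forall₂ (fun p q => q.1 = p.1 ∧ q.2.1 = p.2.1 ∧
    (q.2.2 = p.2.2 ∨ q.2.2 = -p.2.2)) l l') : Rch l l' := by
  induction h with
  | nil => exact Rch.refl _
  | @cons p q l l' h _ ih =>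
    obtain ⟨h1, h2, h3⟩ := h
    refine (ih.cons p).trans ?_
    rcases h3 with h3 | h3
    · have : q = p := Prod.ext h1 (Prod.ext h2 h3)
      rw [this]
      exact Rch.refl _
    · have : q = (p.1, p.2.1, -p.2.2) := Prod.ext h1 (Prod.ext h2 h3)
      rw [this]
      exact Rch.head p l'

/-- Every order and all signs are reached by moves. -/
theorem reach_all (c : List (Ed ι F)) (l : List (ι × F × F)) (h : SgnPerm (c.map Ed.lab) l) :
    ∃ c', Relation.ReflTransGen Adj c c' ∧ c'.map Ed.lab = l := by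
  obtain ⟨l'', h1, h2⟩ := h
  exact ((Rch.perm h1.symm).trans (Rch.sgn h2)) c rfl

/-- The labels of a chain reached by moves. -/
theorem reach_sgn {c c' : List (Ed ι F)} (h : Relation.ReflTransGen Adj c c') :
    SgnPerm (c.map Ed.lab) (c'.map Ed.lab) := by
  have key : ∀ {c c' : List (Ed ι F)}, Adj c c' → ∃ l'', l''.Perm (c.map Ed.lab) ∧
      List.Forall₂ (fun p q => q.1 = p.1 ∧ q.2.1 = p.2.1 ∧
    (q.2.2 = p.2.2 ∨ q.2.2 = -p.2.2)) l'' (c'.map Ed.lab) := by
    intro c c' h
    have hrefl : ∀ l : List (ι × F × F), List.Forall₂ (fun p q => q.1 = p.1 ∧ q.2.1 = p.2.1 ∧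
        (q.2.2 = p.2.2 ∨ q.2.2 = -p.2.2)) l l := by
      intro l
      induction l with
      | nil => exact List.Forall₂.nil
      | cons x l ih => exact List.Forall₂.cons ⟨rfl, rfl, Or.inl rfl⟩ ih
    induction h with
    | swap e₂ e₁ c => exact ⟨_, List.Perm.swap _ _ _, hrefl _⟩
    | flip e => exact ⟨_, List.Perm.refl _, List.Forall₂.cons ⟨rfl, rfl, Or.inr rfl⟩ List.Forall₂.nil⟩
    | cons e _ ih =>
      obtain ⟨l'', h1, h2⟩ := ih
      exact ⟨e.lab :: l'', h1.cons _, List.Forall₂.cons ⟨rfl, rfl, Or.inl rfl⟩ h2⟩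
  -- a relation closed under composition
  have comm : ∀ {l m m' : List (ι × F × F)}, List.Forall₂ (fun p q => q.1 = p.1 ∧ q.2.1 = p.2.1 ∧
      (q.2.2 = p.2.2 ∨ q.2.2 = -p.2.2)) l m → m'.Perm m → ∃ l', l'.Perm l ∧
      List.Forall₂ (fun p q => q.1 = p.1 ∧ q.2.1 = p.2.1 ∧ (q.2.2 = p.2.2 ∨ q.2.2 = -p.2.2)) l' m' := by
    intro l m m' h hp
    have := List.perm_comp_forall₂ hp (List.Forall₂.flip h)
    obtain ⟨l', h1, h2⟩ := this
    exact ⟨l', h2, List.Forall₂.flip h1⟩
  have tr : ∀ {l m n : List (ι × F × F)}, List.Forall₂ (fun p q => q.1 = p.1 ∧ q.2.1 = p.2.1 ∧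
      (q.2.2 = p.2.2 ∨ q.2.2 = -p.2.2)) l m → List.Forall₂ (fun p q => q.1 = p.1 ∧ q.2.1 = p.2.1 ∧
      (q.2.2 = p.2.2 ∨ q.2.2 = -p.2.2)) m n → List.Forall₂ (fun p q => q.1 = p.1 ∧ q.2.1 = p.2.1 ∧
      (q.2.2 = p.2.2 ∨ q.2.2 = -p.2.2)) l n := by
    intro l m n h
    induction h generalizing n with
    | nil => intro h'; cases h'; exact List.Forall₂.nil
    | cons h _ ih =>
      intro h'
      cases h' with
      | cons h1 h2 =>
        refine List.Forall₂.cons ⟨h1.1.trans h.1, h1.2.1.trans h.2.1, ?_⟩ (ih h2)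
        rcases h.2.2 with h3 | h3 <;> rcases h1.2.2 with h4 | h4 <;> rw [h4, h3]
        · exact Or.inl rfl
        · exact Or.inr rfl
        · exact Or.inr rfl
        · rw [neg_neg]; exact Or.inl rfl
  induction h with
  | refl =>
    refine ⟨_, List.Perm.refl _, ?_⟩
    generalize c.map Ed.lab = l
    induction l with
    | nil => exact List.Forall₂.nil
    | cons x l ih => exact List.Forall₂.cons ⟨rfl, rfl, Or.inl rfl⟩ ih
  | tail _ h ih =>
    obtain ⟨l₁, p₁, s₁⟩ := ih
    obtain ⟨l₂, p₂, s₂⟩ := key h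
    obtain ⟨l₃, p₃, s₃⟩ := comm s₁ p₂
    exact ⟨l₃, p₃.trans p₁, tr s₃ s₂⟩

end Pool.Agent.Helper15.VN
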